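import Pool.Agent.Q18.EQ.StmB

/-!
Burnside's theorem on marks, relative to a set of colours.
-/

set_option autoImplicit false

open MulAction

namespace Pool.Agent.Q285.EQ

section

variable {P A B C : Type} [Group P] [MulAction P A] [MulAction P B] [MulAction P C]

/-- the points of `S` of the colour `c` which are fixed by `H` -/
def Fx (S : Set A) (f : A → C) (H : Subgroup P) (c : C) : Set A :=
  {a | a ∈ S ∧ f a = c ∧ ∀ h ∈ H, h • a = a}

theorem orbit_map (a0 : A) (b0 : B) (E : ∀ x y : P, x • a0 = y • a0 ↔ x • b0 = y • b0) :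
    ∃ θ : A → B, ∀ x : P, θ (x • a0) = x • b0 := by
  classical
  refine ⟨fun a => if h : ∃ x : P, x • a0 = a then h.choose • b0 else b0, fun x => ?_⟩
  have h : ∃ y : P, y • a0 = x • a0 := ⟨x, rfl⟩
  change (if h : ∃ y : P, y • a0 = x • a0 then h.choose • b0 else b0) = x • b0
  rw [dif_pos h]
  exact (E _ _).1 h.choose_spec

theorem orbit_count (f : A → C) (g : B → C) (hf : ∀ (x : P) (a : A), f (x • a) = x • f a)
    (hg : ∀ (x : P) (b : B), g (x • b) = x • g b) (a0 : A) (b0 : B)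
    (E : ∀ x y : P, x • a0 = y • a0 ↔ x • b0 = y • b0) (h0 : f a0 = g b0) (H : Subgroup P)
    (c : C) : (Fx (orbit P a0) f H c).ncard = (Fx (orbit P b0) g H c).ncard := by
  obtain ⟨θ, hθ⟩ := orbit_map a0 b0 E
  have h1 : θ '' Fx (orbit P a0) f H c = Fx (orbit P b0) g H c := by
    ext b
    constructor
    · rintro ⟨_, ⟨⟨x, rfl⟩, hc, hH⟩, rfl⟩
      change θ (x • a0) ∈ _
      rw [hθ]
      refine ⟨⟨x, rfl⟩, ?_, fun h hh => ?_⟩
      · rw [hg, ← h0, ← hf]
        exact hc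
      · rw [smul_smul]
        refine (E _ _).1 ?_
        rw [mul_smul]
        exact hH h hh
    · rintro ⟨⟨x, rfl⟩, hc, hH⟩
      refine ⟨x • a0, ⟨⟨x, rfl⟩, ?_, fun h hh => ?_⟩, hθ x⟩
      · rw [hf, h0, ← hg]
        exact hc
      · rw [smul_smul]
        refine (E _ _).2 ?_
        rw [mul_smul]
        exact hH h hh
  rw [← h1]
  refine (Set.InjOn.ncard_image ?_).symm
  rintro _ ⟨⟨x, rfl⟩, _⟩ _ ⟨⟨y, rfl⟩, _⟩ hxy
  change θ (x • a0) = θ (y • a0) at hxy
  rw [hθ, hθ] at hxy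
  exact (E x y).2 hxy

omit [MulAction P C] in
theorem Fx_diff [Finite A] (S O : Set A) (hO : O ⊆ S) (f : A → C) (H : Subgroup P) (c : C) :
    (Fx S f H c).ncard = (Fx O f H c).ncard + (Fx (S \ O) f H c).ncard := by
  have h1 : Fx S f H c = Fx O f H c ∪ Fx (S \ O) f H c := by
    ext a
    constructor
    · rintro ⟨h1, h2⟩
      by_cases h3 : a ∈ O
      · exact Or.inl ⟨h3, h2⟩
      · exact Or.inr ⟨⟨h1, h3⟩, h2⟩
    · rintro (⟨h1, h2⟩ | ⟨h1, h2⟩)
      · exact ⟨hO h1, h2⟩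
      · exact ⟨h1.1, h2⟩
  rw [h1]
  refine Set.ncard_union_eq ?_ (Set.toFinite _) (Set.toFinite _)
  rw [Set.disjoint_left]
  rintro a ⟨h2, _⟩ ⟨⟨_, h3⟩, _⟩
  exact h3 h2

theorem burn_aux [Finite P] [Finite A] [Finite B] [Nonempty B] (f : A → C) (g : B → C)
    (hf : ∀ (x : P) (a : A), f (x • a) = x • f a) (hg : ∀ (x : P) (b : B), g (x • b) = x • g b)
    (n : ℕ) : ∀ (S : Set A) (T : Set B), S.ncard ≤ n → (∀ (x : P), ∀ a ∈ S, x • a ∈ S) →
      (∀ (x : P), ∀ b ∈ T, x • b ∈ T) →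
      (∀ (H : Subgroup P) (c : C), (Fx S f H c).ncard = (Fx T g H c).ncard) →
      ∃ φ : A → B, Set.BijOn φ S T ∧ (∀ (x : P), ∀ a ∈ S, φ (x • a) = x • φ a) ∧
        ∀ a ∈ S, g (φ a) = f a := by
  classical
  -- a fixed point on one side gives a fixed point on the other one
  have key : ∀ {A B : Type} [Finite A] [Finite B] [MulAction P A] [MulAction P B] (f : A → C)
      (g : B → C) (S : Set A) (T : Set B),
      (∀ (H : Subgroup P) (c : C), (Fx S f H c).ncard = (Fx T g H c).ncard) →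
      ∀ a ∈ S, ∃ b ∈ T, g b = f a ∧ stabilizer P a ≤ stabilizer P b := by
    intro A B _ _ _ _ f g S T hST a ha
    have h1 : (Fx S f (stabilizer P a) (f a)).Nonempty := ⟨a, ha, rfl, fun h hh => hh⟩
    have h2 := (Set.ncard_pos (Set.toFinite _)).2 h1
    rw [hST] at h2
    obtain ⟨b, hb, hc, hH⟩ := (Set.ncard_pos (Set.toFinite _)).1 h2
    exact ⟨b, hb, hc, fun h hh => hH h hh⟩
  induction n with
  | zero =>
    intro S T hn hS hT hST
    have hS0 : S = ∅ := (Set.ncard_eq_zero (Set.toFinite _)).1 (Nat.le_zero.1 hn)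
    have hT0 : T = ∅ := by
      rw [Set.eq_empty_iff_forall_notMem]
      intro b hb
      obtain ⟨a, ha, -⟩ := key g f T S (fun H c => (hST H c).symm) b hb
      rw [hS0] at ha
      exact ha
    rw [hS0, hT0]
    exact ⟨fun _ => Classical.arbitrary B, Set.bijOn_empty _, fun _ _ h => h.elim,
      fun _ h => h.elim⟩
  | succ n ih =>
    intro S T hn hS hT hST
    rcases S.eq_empty_or_nonempty with hS0 | hne
    · exact ih S T (by rw [hS0, Set.ncard_empty]; omega) hS hT hST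
    obtain ⟨a0, ha0, hmax⟩ := Set.exists_max_image S (fun a => Nat.card (stabilizer P a))
      (Set.toFinite _) hne
    obtain ⟨b0, hb0, h0, hle⟩ := key f g S T hST a0 ha0
    obtain ⟨a1, ha1, -, hle1⟩ := key g f T S (fun H c => (hST H c).symm) b0 hb0
    have hstab : stabilizer P a0 = stabilizer P b0 := by
      refine Subgroup.eq_of_le_of_card_ge hle ?_
      exact (Subgroup.card_le_of_le hle1).trans (hmax a1 ha1)
    have E : ∀ x y : P, x • a0 = y • a0 ↔ x • b0 = y • b0 := by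
      intro x y
      have h1 : x • a0 = y • a0 ↔ y⁻¹ * x ∈ stabilizer P a0 := by
        rw [mem_stabilizer_iff, mul_smul, inv_smul_eq_iff]
      have h2 : x • b0 = y • b0 ↔ y⁻¹ * x ∈ stabilizer P b0 := by
        rw [mem_stabilizer_iff, mul_smul, inv_smul_eq_iff]
      rw [h1, h2, hstab]
    have hOS : orbit P a0 ⊆ S := by rintro _ ⟨x, rfl⟩; exact hS x a0 ha0
    have hOT : orbit P b0 ⊆ T := by rintro _ ⟨x, rfl⟩; exact hT x b0 hb0
    have hOa : ∀ (x : P) (a : A), x • a ∈ orbit P a0 ↔ a ∈ orbit P a0 := by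
      intro x a
      rw [← orbit_eq_iff, ← orbit_eq_iff, orbit_smul]
    have hOb : ∀ (x : P) (b : B), x • b ∈ orbit P b0 ↔ b ∈ orbit P b0 := by
      intro x b
      rw [← orbit_eq_iff, ← orbit_eq_iff, orbit_smul]
    obtain ⟨φ, hφ, hφe, hφc⟩ := ih (S \ orbit P a0) (T \ orbit P b0) (by
        have h1 : (S \ orbit P a0).ncard < S.ncard := Set.ncard_lt_ncard
          ⟨Set.sdiff_subset, fun h => (h ha0).2 (mem_orbit_self a0)⟩ (Set.toFinite _)
        omega)
      (fun x a ha => ⟨hS x a ha.1, fun h => ha.2 ((hOa x a).1 h)⟩)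
      (fun x b hb => ⟨hT x b hb.1, fun h => hb.2 ((hOb x b).1 h)⟩)
      (fun H c => by
        have h1 := hST H c
        rw [Fx_diff S _ hOS, Fx_diff T _ hOT, orbit_count f g hf hg a0 b0 E h0.symm] at h1
        omega)
    obtain ⟨θ, hθ⟩ := orbit_map a0 b0 E
    obtain ⟨ψ, hψ⟩ : ∃ ψ : A → B, ψ = fun a => if a ∈ orbit P a0 then θ a else φ a := ⟨_, rfl⟩
    have hψ1 : ∀ a ∈ orbit P a0, ψ a = θ a := by
      intro a ha; rw [hψ]; exact if_pos ha
    have hψ2 : ∀ a, a ∉ orbit P a0 → ψ a = φ a := by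
      intro a ha; rw [hψ]; exact if_neg ha
    have hψ3 : ∀ x : P, ψ (x • a0) = x • b0 := by
      intro x; rw [hψ1 _ ⟨x, rfl⟩, hθ]
    refine ⟨ψ, ⟨?_, ?_, ?_⟩, ?_, ?_⟩
    · intro a ha
      by_cases h : a ∈ orbit P a0
      · obtain ⟨x, rfl⟩ := h
        change ψ (x • a0) ∈ T
        rw [hψ3]
        exact hT x b0 hb0
      · rw [hψ2 a h]
        exact (hφ.mapsTo ⟨ha, h⟩).1
    · intro a ha a' ha' hE
      by_cases h : a ∈ orbit P a0
      · by_cases h' : a' ∈ orbit P a0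
        · obtain ⟨x, rfl⟩ := h
          obtain ⟨y, rfl⟩ := h'
          change ψ (x • a0) = ψ (y • a0) at hE
          rw [hψ3, hψ3] at hE
          exact (E x y).2 hE
        · obtain ⟨x, rfl⟩ := h
          change ψ (x • a0) = ψ a' at hE
          rw [hψ3, hψ2 a' h'] at hE
          exact absurd (hE ▸ ⟨x, rfl⟩ : φ a' ∈ orbit P b0) (hφ.mapsTo ⟨ha', h'⟩).2
      · by_cases h' : a' ∈ orbit P a0
        · obtain ⟨y, rfl⟩ := h'
          change ψ a = ψ (y • a0) at hE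
          rw [hψ3, hψ2 a h] at hE
          exact absurd (hE ▸ ⟨y, rfl⟩ : φ a ∈ orbit P b0) (hφ.mapsTo ⟨ha, h⟩).2
        · rw [hψ2 a h, hψ2 a' h'] at hE
          exact hφ.injOn ⟨ha, h⟩ ⟨ha', h'⟩ hE
    · intro b hb
      by_cases h : b ∈ orbit P b0
      · obtain ⟨x, rfl⟩ := h
        exact ⟨x • a0, hS x a0 ha0, hψ3 x⟩
      · obtain ⟨a, ha, hab⟩ := hφ.surjOn ⟨hb, h⟩
        exact ⟨a, ha.1, by rw [hψ2 a ha.2]; exact hab⟩
    · intro x a ha
      by_cases h : a ∈ orbit P a0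
      · obtain ⟨y, rfl⟩ := h
        change ψ (x • y • a0) = x • ψ (y • a0)
        rw [smul_smul, hψ3, hψ3, mul_smul]
      · rw [hψ2 a h, hψ2 _ fun h1 => h ((hOa x a).1 h1)]
        exact hφe x a ⟨ha, h⟩
    · intro a ha
      by_cases h : a ∈ orbit P a0
      · obtain ⟨y, rfl⟩ := h
        change g (ψ (y • a0)) = f (y • a0)
        rw [hψ3, hg, hf, h0]
      · rw [hψ2 a h]
        exact hφc a ⟨ha, h⟩

end

/-- **Burnside's theorem on marks**, relative to a set of colours. -/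
theorem burn : Pool.Agent.Q18.EQ.S_BURN := by
  intro P _ _ A B C _ _ _ _ _ f g hf hg h
  have h1 : ∀ (H : Subgroup P) (c : C),
      (Fx Set.univ f H c).ncard = (Fx Set.univ g H c).ncard := by
    intro H c
    have h2 := h H c
    have h3 : (Fx Set.univ f H c : Set A) = {a | f a = c ∧ ∀ h ∈ H, h • a = a} := by
      ext a
      exact ⟨fun h => h.2, fun h => ⟨Set.mem_univ _, h⟩⟩
    have h4 : (Fx Set.univ g H c : Set B) = {a | g a = c ∧ ∀ h ∈ H, h • a = a} := by
      ext a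
      exact ⟨fun h => h.2, fun h => ⟨Set.mem_univ _, h⟩⟩
    rw [h3, h4]
    exact h2
  by_cases hB : Nonempty B
  · obtain ⟨φ, hφ, hφe, hφc⟩ := burn_aux f g hf hg _ Set.univ Set.univ le_rfl
      (fun _ _ _ => Set.mem_univ _) (fun _ _ _ => Set.mem_univ _) h1
    refine ⟨Equiv.ofBijective φ (Set.bijOn_univ.1 hφ), fun x a => ?_, fun a => ?_⟩
    · exact hφe x a (Set.mem_univ _)
    · exact hφc a (Set.mem_univ _)
  · have hA : IsEmpty A := by
      refine ⟨fun a => ?_⟩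
      have h2 : (Fx Set.univ f (⊥ : Subgroup P) (f a)).Nonempty :=
        ⟨a, Set.mem_univ _, rfl, fun h hh => by rw [Subgroup.mem_bot.1 hh, one_smul]⟩
      have h3 := (Set.ncard_pos (Set.toFinite _)).2 h2
      rw [h1] at h3
      obtain ⟨b, -⟩ := (Set.ncard_pos (Set.toFinite _)).1 h3
      exact hB ⟨b⟩
    have hB' : IsEmpty B := not_nonempty_iff.1 hB
    exact ⟨Equiv.equivOfIsEmpty A B, fun _ a => (hA.false a).elim, fun a => (hA.false a).elim⟩

end Pool.Agent.Q285.EQ
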